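import Pool.Agent.H64.OC2.Asymp

/-! # asy8 (numerics with `b`, for all levels `r` with `r ^ 3 ≤ log₂ n`) and level_small -/

set_option autoImplicit false

namespace Pool.Agent.H15.RO

open Finset
open Pool.Agent.H64.OC2

private theorem grow8 : ∃ n0 : ℕ, ∀ n ≥ n0, 2 ≤ n ∧ ∀ r : ℕ, 1 ≤ r → r ^ 3 ≤ Nat.log 2 n →
    3456 * (2 * (Nat.log 2 n : ℝ) + 21) ^ 2 + 32 ≤
      (n : ℝ) ^ (1 / (((r : ℝ) + 1) * ((r : ℝ) + 2))) := by
  have h1 : ∀ᶠ N : ℝ in Filter.atTop, 60000 ≤ N ∧ 10 ≤ Real.log N ∧ 13122 * Real.log N ^ 3 ≤ N := by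
    have h2 := (Real.isLittleO_pow_log_id_atTop (n := 3)).bound (show (0 : ℝ) < 1 / 13122 by norm_num)
    filter_upwards [Filter.eventually_ge_atTop 60000, Real.tendsto_log_atTop.eventually_ge_atTop 10, h2] with N a1 a2 a3
    refine ⟨a1, a2, ?_⟩
    have a4 : ‖Real.log N ^ 3‖ = Real.log N ^ 3 := by
      rw [Real.norm_eq_abs, abs_of_nonneg (pow_nonneg (by linarith) 3)]
    have a5 : ‖(id N : ℝ)‖ = N := by
      rw [id, Real.norm_eq_abs, abs_of_nonneg (by linarith)]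
    rw [a4, a5] at a3
    linarith
  have h2 : ∀ᶠ n : ℕ in Filter.atTop, 60000 ≤ Real.log n ∧ 10 ≤ Real.log (Real.log n) ∧
      13122 * Real.log (Real.log n) ^ 3 ≤ Real.log n :=
    (Real.tendsto_log_atTop.comp tendsto_natCast_atTop_atTop).eventually h1
  have h3 : ∀ᶠ n : ℕ in Filter.atTop, 2 ≤ n := Filter.eventually_ge_atTop _
  obtain ⟨n0, hn0⟩ := Filter.eventually_atTop.1 (h2.and h3)
  refine ⟨n0, fun n hn => ?_⟩
  obtain ⟨⟨hN1, hN2, hN3⟩, hn4⟩ := hn0 n hn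
  refine ⟨hn4, fun r hr1 hr3 => ?_⟩
  have hn1 : (1 : ℝ) < n := by
    have : 1 < n := by omega
    exact_mod_cast this
  have hn0' : (0 : ℝ) < n := by linarith
  set N : ℝ := Real.log n with hN
  have hl2 : (2 : ℝ) / 3 ≤ Real.log 2 := by
    have := Real.log_two_gt_d9
    linarith
  have hNpos : 0 < N := by linarith
  -- the logarithm
  have h8 : (Nat.log 2 n : ℝ) ≤ 3 / 2 * N := by
    have h9 : (2 : ℝ) ^ (Nat.log 2 n) ≤ n := by exact_mod_cast Nat.pow_log_le_self 2 (by omega)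
    have h10 := Real.log_le_log (by positivity) h9
    rw [Real.log_pow] at h10
    have h11 : (Nat.log 2 n : ℝ) * (2 / 3) ≤ Nat.log 2 n * Real.log 2 :=
      mul_le_mul_of_nonneg_left hl2 (Nat.cast_nonneg _)
    linarith
  have hr3' : (r : ℝ) ^ 3 ≤ 3 / 2 * N := by
    have h9 : ((r ^ 3 : ℕ) : ℝ) ≤ (Nat.log 2 n : ℝ) := by exact_mod_cast hr3
    push_cast at h9
    linarith
  have hr1' : (1 : ℝ) ≤ r := by exact_mod_cast hr1
  have hL0 : 0 ≤ Real.log N := by linarith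
  have h7 : 18 * (r : ℝ) ^ 2 * Real.log N ≤ N := by
    refine le_of_pow_le_pow_left₀ (n := 3) (by norm_num) hNpos.le ?_
    have h9 : ((r : ℝ) ^ 3) ^ 2 ≤ (3 / 2 * N) ^ 2 := pow_le_pow_left₀ (by positivity) hr3' 2
    have h10 : 0 ≤ Real.log N ^ 3 := pow_nonneg hL0 3
    calc (18 * (r : ℝ) ^ 2 * Real.log N) ^ 3 = 5832 * (((r : ℝ) ^ 3) ^ 2 * Real.log N ^ 3) := by ring
      _ ≤ 5832 * ((3 / 2 * N) ^ 2 * Real.log N ^ 3) :=
          mul_le_mul_of_nonneg_left (mul_le_mul_of_nonneg_right h9 h10) (by norm_num)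
      _ = N ^ 2 * (13122 * Real.log N ^ 3) := by ring
      _ ≤ N ^ 2 * N := mul_le_mul_of_nonneg_left hN3 (by positivity)
      _ = N ^ 3 := by ring
  have h9 : 3456 * (2 * (Nat.log 2 n : ℝ) + 21) ^ 2 + 32 ≤ 60000 * N ^ 2 := by
    have h10 : 2 * (Nat.log 2 n : ℝ) + 21 ≤ 4 * N := by linarith
    have h11 : (2 * (Nat.log 2 n : ℝ) + 21) ^ 2 ≤ (4 * N) ^ 2 := pow_le_pow_left₀ (by positivity) h10 2
    nlinarith
  have h10 : (n : ℝ) ^ (1 / (((r : ℝ) + 1) * ((r : ℝ) + 2))) = Real.exp (N / (((r : ℝ) + 1) * ((r : ℝ) + 2))) := by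
    rw [Real.rpow_def_of_pos hn0', ← hN]
    congr 1
    ring
  have h11 : 3 * Real.log N ≤ N / (((r : ℝ) + 1) * ((r : ℝ) + 2)) := by
    rw [le_div_iff₀ (by positivity)]
    have h12 : (0 : ℝ) ≤ 3 * Real.log N := by linarith
    have h13 : ((r : ℝ) + 1) * ((r : ℝ) + 2) ≤ 6 * (r : ℝ) ^ 2 := by nlinarith
    calc 3 * Real.log N * (((r : ℝ) + 1) * ((r : ℝ) + 2)) ≤ 3 * Real.log N * (6 * (r : ℝ) ^ 2) :=
          mul_le_mul_of_nonneg_left h13 h12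
      _ = 18 * (r : ℝ) ^ 2 * Real.log N := by ring
      _ ≤ N := h7
  have h12 : N ^ 3 ≤ Real.exp (N / (((r : ℝ) + 1) * ((r : ℝ) + 2))) := by
    have h13 : N ^ 3 = Real.exp (3 * Real.log N) := by
      rw [show (3 : ℝ) = ((3 : ℕ) : ℝ) by norm_num, ← Real.log_pow, Real.exp_log (by positivity)]
    rw [h13]
    exact Real.exp_le_exp.mpr h11
  rw [h10]
  refine h9.trans (le_trans ?_ h12)
  have h13 : N ^ 3 = N * N ^ 2 := by ring
  rw [h13]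
  exact mul_le_mul_of_nonneg_right hN1 (by positivity)

/-- the levels needed are small -/
theorem level_small : ∃ n0 : ℕ, ∀ n ≥ n0, (logStar n + 5) ^ 3 ≤ Nat.log 2 n := by
  have h1 : ∀ᶠ N : ℝ in Filter.atTop, 60000 ≤ N ∧ 10 ≤ Real.log N ∧ 19 * Real.log N ^ 3 ≤ N := by
    have h2 := (Real.isLittleO_pow_log_id_atTop (n := 3)).bound (show (0 : ℝ) < 1 / 19 by norm_num)
    filter_upwards [Filter.eventually_ge_atTop 60000, Real.tendsto_log_atTop.eventually_ge_atTop 10, h2] with N a1 a2 a3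
    refine ⟨a1, a2, ?_⟩
    have a4 : ‖Real.log N ^ 3‖ = Real.log N ^ 3 := by
      rw [Real.norm_eq_abs, abs_of_nonneg (pow_nonneg (by linarith) 3)]
    have a5 : ‖(id N : ℝ)‖ = N := by
      rw [id, Real.norm_eq_abs, abs_of_nonneg (by linarith)]
    rw [a4, a5] at a3
    linarith
  have h2 : ∀ᶠ n : ℕ in Filter.atTop, 60000 ≤ Real.log n ∧ 10 ≤ Real.log (Real.log n) ∧
      19 * Real.log (Real.log n) ^ 3 ≤ Real.log n :=
    (Real.tendsto_log_atTop.comp tendsto_natCast_atTop_atTop).eventually h1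
  have h3 : ∀ᶠ n : ℕ in Filter.atTop, tower 3 + 2 ≤ n := Filter.eventually_ge_atTop _
  obtain ⟨n0, hn0⟩ := Filter.eventually_atTop.1 (h2.and h3)
  refine ⟨n0, fun n hn => ?_⟩
  obtain ⟨⟨hN1, hN2, hN3⟩, hn4⟩ := hn0 n hn
  have ht : 3 < logStar n := lt_logStar_of_tower_lt (by omega)
  obtain ⟨t, htdef⟩ : ∃ t, t = logStar n := ⟨_, rfl⟩
  rw [← htdef]
  rw [← htdef] at ht
  obtain ⟨s, hs⟩ : ∃ s, t = s + 3 := ⟨t - 3, by omega⟩
  have hn1 : (1 : ℝ) < n := by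
    have : 1 < n := by omega
    exact_mod_cast this
  have hn0' : (0 : ℝ) < n := by linarith
  set N : ℝ := Real.log n with hN
  have hl2 : (2 : ℝ) / 3 ≤ Real.log 2 := by
    have := Real.log_two_gt_d9
    linarith
  have hl2' : Real.log 2 ≤ 1 := by
    have := Real.log_two_lt_d9
    linarith
  -- the tower bound
  have h4 : tower (s + 2) < n := tower_lt_of_lt_logStar (by rw [← htdef]; omega)
  have h5 : (2 : ℝ) ^ s * (1 / 2) ≤ N := by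
    have h6 : (2 : ℝ) ^ (2 ^ s) ≤ n := by
      have h7 : 2 ^ (2 ^ s) ≤ tower (s + 2) := by
        show 2 ^ (2 ^ s) ≤ 2 ^ tower (s + 1)
        exact Nat.pow_le_pow_right (by norm_num) (two_pow_le_tower s)
      exact_mod_cast h7.trans h4.le
    have h7 := Real.log_le_log (by positivity) h6
    rw [Real.log_pow] at h7
    push_cast at h7
    have h8 : (0 : ℝ) < 2 ^ s := by positivity
    nlinarith
  have hNpos : 0 < N := by linarith
  have h6 : (t : ℝ) + 5 ≤ 5 / 2 * Real.log N := by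
    have h7 : (2 : ℝ) ^ s ≤ 2 * N := by linarith
    have h8 := Real.log_le_log (by positivity) h7
    rw [Real.log_pow, Real.log_mul (by norm_num) hNpos.ne'] at h8
    have h9 : (s : ℝ) * (2 / 3) ≤ s * Real.log 2 := mul_le_mul_of_nonneg_left hl2 (Nat.cast_nonneg s)
    have h10 : (t : ℝ) = s + 3 := by rw [hs]; push_cast; ring
    rw [h10]
    linarith
  have h7 : ((t : ℝ) + 5) ^ 3 ≤ 16 / 19 * N := by
    have h8 : ((t : ℝ) + 5) ^ 3 ≤ (5 / 2 * Real.log N) ^ 3 := pow_le_pow_left₀ (by positivity) h6 3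
    have h9 : 0 ≤ Real.log N ^ 3 := pow_nonneg (by linarith) 3
    have h10 : (5 / 2 * Real.log N) ^ 3 = 125 / 8 * Real.log N ^ 3 := by ring
    rw [h10] at h8
    linarith
  have h8 : N ≤ (Nat.log 2 n : ℝ) + 1 := by
    have h9 : (n : ℝ) ≤ 2 ^ (Nat.log 2 n + 1) := by
      have h10 : n < 2 ^ (Nat.log 2 n + 1) := Nat.lt_pow_succ_log_self (by norm_num) n
      exact_mod_cast h10.le
    have h10 := Real.log_le_log hn0' h9
    rw [Real.log_pow, ← hN] at h10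
    push_cast at h10
    have h11 : (0 : ℝ) ≤ (Nat.log 2 n : ℝ) + 1 := by positivity
    nlinarith
  have h9 : (((t + 5) ^ 3 : ℕ) : ℝ) ≤ ((Nat.log 2 n : ℕ) : ℝ) := by
    push_cast
    linarith
  exact_mod_cast h9

theorem asy8 : ∃ n0 : ℕ, ∀ n ≥ n0, ∀ r : ℕ, 1 ≤ r → r ^ 3 ≤ Nat.log 2 n → ∀ b : ℕ, 1 ≤ b →
    ((b : ℝ) ^ 2 < (n : ℝ) ^ (1 / ((r : ℝ) + 2))) →
    ∃ T θ K : ℕ, 1 ≤ T ∧ 2 ≤ θ ∧ 2 * (32 * θ) ≤ n ∧ T * (16 * T) ^ r ≤ n ∧
      Real.exp (-((T : ℝ) / 8)) +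
          (T : ℝ) * (K * (((16 * T : ℕ) : ℝ) ^ r + 1) * Real.exp (-(θ : ℝ))) ≤
        (1 / 2 : ℝ) ^ (b + 1) ∧
      72 * K * θ ^ 2 < T ∧ 2 * ((n : ℝ) ^ (1 / ((r : ℝ) + 2)) / (b : ℝ) ^ 2) ≤ K := by
  obtain ⟨n0, hn0⟩ := grow8
  refine ⟨n0, fun n hn r hr1 hrt b hb hbx => ?_⟩
  obtain ⟨hn2, hw0⟩ := hn0 n hn
  have hn1 : (1 : ℝ) ≤ n := by
    have : 1 ≤ n := by omega
    exact_mod_cast this
  have hnpos : (0 : ℝ) < n := by linarith
  obtain ⟨x, hx⟩ : ∃ x : ℝ, x = (n : ℝ) ^ (1 / ((r : ℝ) + 2)) := ⟨_, rfl⟩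
  obtain ⟨w, hwdef⟩ : ∃ w : ℝ, w = (n : ℝ) ^ (1 / (((r : ℝ) + 1) * ((r : ℝ) + 2))) := ⟨_, rfl⟩
  obtain ⟨y, hy⟩ : ∃ y : ℝ, y = (n : ℝ) ^ (1 / ((r : ℝ) + 1)) := ⟨_, rfl⟩
  rw [← hx] at hbx ⊢
  obtain ⟨l, hl⟩ : ∃ l : ℕ, l = Nat.log 2 n := ⟨_, rfl⟩
  have hw : 3456 * (2 * (l : ℝ) + 21) ^ 2 + 32 ≤ w := by
    rw [hwdef, hl]
    exact hw0 r hr1 hrt
  have hx1 : 1 ≤ x := by rw [hx]; exact Real.one_le_rpow hn1 (by positivity)
  have hyxw : y = x * w := by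
    rw [hy, hx, hwdef, ← Real.rpow_add hnpos]
    congr 1
    have h1 : (r : ℝ) + 1 ≠ 0 := by positivity
    have h2 : (r : ℝ) + 2 ≠ 0 := by positivity
    field_simp
    ring
  have hb1 : (1 : ℝ) ≤ b := by exact_mod_cast hb
  -- parameters
  obtain ⟨T, hT⟩ : ∃ T : ℕ, T = ⌊y / 16⌋₊ := ⟨_, rfl⟩
  obtain ⟨θ, hθ⟩ : ∃ θ : ℕ, θ = 2 * l + b + 20 := ⟨_, rfl⟩
  have hy0 : 0 ≤ y := by rw [hy]; positivity
  have hTle : (T : ℝ) ≤ y / 16 := by rw [hT]; exact Nat.floor_le (by positivity)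
  have hTgt : y / 16 - 1 < T := by
    have := Nat.lt_floor_add_one (y / 16)
    rw [← hT] at this
    linarith
  -- `T - 1 ≥ 216 x (2 l + 21)^2`
  have hTbig : 216 * x * (2 * (l : ℝ) + 21) ^ 2 ≤ T - 1 := by
    have h1 : x * (3456 * (2 * (l : ℝ) + 21) ^ 2 + 32) ≤ x * w := mul_le_mul_of_nonneg_left hw (by linarith)
    rw [← hyxw] at h1
    nlinarith
  have hθle : (θ : ℝ) ≤ b * (2 * (l : ℝ) + 21) := by
    rw [hθ]
    push_cast
    have h1 : (0 : ℝ) ≤ l := Nat.cast_nonneg l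
    nlinarith
  have hθ2 : (θ : ℝ) ^ 2 ≤ (b : ℝ) ^ 2 * (2 * (l : ℝ) + 21) ^ 2 := by
    rw [← mul_pow]
    exact pow_le_pow_left₀ (by positivity) hθle 2
  have hq0 : (0 : ℝ) < (2 * (l : ℝ) + 21) ^ 2 := by positivity
  have hq1 : (441 : ℝ) ≤ (2 * (l : ℝ) + 21) ^ 2 := by
    have h1 : (0 : ℝ) ≤ l := Nat.cast_nonneg l
    nlinarith
  have hbx' : (b : ℝ) ^ 2 ≤ x := hbx.le
  have hTθ : 72 * (θ : ℝ) ^ 2 ≤ T - 1 := by
    have h1 : (b : ℝ) ^ 2 * (2 * (l : ℝ) + 21) ^ 2 ≤ x * (2 * (l : ℝ) + 21) ^ 2 :=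
      mul_le_mul_of_nonneg_right hbx' hq0.le
    have h2 : 0 ≤ x * (2 * (l : ℝ) + 21) ^ 2 := by positivity
    linarith
  have hTb : 8 * ((b : ℝ) + 2) ≤ T := by
    have h1 : 0 ≤ x * (2 * (l : ℝ) + 21) ^ 2 := by positivity
    have h2 : (b : ℝ) ^ 2 * 441 ≤ x * (2 * (l : ℝ) + 21) ^ 2 :=
      mul_le_mul hbx' hq1 (by norm_num) (by linarith)
    nlinarith
  have hT1 : 1 ≤ T := by
    have h1 : (1 : ℝ) ≤ T := by nlinarith
    exact_mod_cast h1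
  have hTθN : 72 * θ ^ 2 ≤ T - 1 := by
    have h1 : ((72 * θ ^ 2 : ℕ) : ℝ) ≤ ((T - 1 : ℕ) : ℝ) := by
      rw [Nat.cast_sub hT1]
      push_cast
      exact hTθ
    exact_mod_cast h1
  -- `(16 T)^(t+4) ≤ n`
  have hpow : (16 * T) ^ (r + 1) ≤ n := by
    have h1 : ((16 * T : ℕ) : ℝ) ≤ y := by push_cast; linarith
    have h2 : ((16 * T : ℕ) : ℝ) ^ (r + 1) ≤ y ^ (r + 1) := pow_le_pow_left₀ (by positivity) h1 _
    have h3 : y ^ (r + 1) = n := by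
      rw [hy, ← Real.rpow_natCast, ← Real.rpow_mul hnpos.le]
      have h4 : 1 / ((r : ℝ) + 1) * ((r + 1 : ℕ) : ℝ) = 1 := by
        push_cast
        have : (r : ℝ) + 1 ≠ 0 := by positivity
        field_simp
      rw [h4, Real.rpow_one]
    rw [h3] at h2
    exact_mod_cast h2
  have hTn : T * (16 * T) ^ r ≤ n := by
    calc T * (16 * T) ^ r ≤ (16 * T) * (16 * T) ^ r :=
          Nat.mul_le_mul_right _ (by omega)
      _ = (16 * T) ^ (r + 1) := by rw [pow_succ]; ring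
      _ ≤ n := hpow
  have hTn' : T ≤ n := by
    calc T = T * 1 := (mul_one T).symm
      _ ≤ T * (16 * T) ^ r := Nat.mul_le_mul_left _ (Nat.one_le_pow _ _ (by omega))
      _ ≤ n := hTn
  obtain ⟨K, hK⟩ : ∃ K : ℕ, K = (T - 1) / (72 * θ ^ 2) := ⟨_, rfl⟩
  have hθpos : 0 < θ := by omega
  have hden : 0 < 72 * θ ^ 2 := by positivity
  have hKT : K ≤ T := by
    rw [hK]
    exact (Nat.div_le_self _ _).trans (Nat.sub_le _ _)
  refine ⟨T, θ, K, hT1, by omega, ?_, hTn, ?_, ?_, ?_⟩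
  · have h1 : θ * 1 ≤ θ * θ := Nat.mul_le_mul_left _ hθpos
    have h2 : θ ^ 2 = θ * θ := sq θ
    rw [h2] at hTθN
    omega
  · have hexp : ∀ u : ℕ, Real.exp (-(u : ℝ)) ≤ (1 / 2 : ℝ) ^ u := by
      intro u
      have h1 : Real.exp (-(1 : ℝ)) ≤ 1 / 2 := by
        rw [Real.exp_neg, ← one_div]
        have h2 := Real.add_one_le_exp (1 : ℝ)
        exact one_div_le_one_div_of_le (by norm_num) (by linarith)
      calc Real.exp (-(u : ℝ)) = Real.exp (-(1 : ℝ)) ^ u := by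
            rw [← Real.exp_nat_mul]
            congr 1
            ring
        _ ≤ (1 / 2 : ℝ) ^ u := pow_le_pow_left₀ (Real.exp_pos _).le h1 u
    have h1 : Real.exp (-((T : ℝ) / 8)) ≤ (1 / 2 : ℝ) ^ (b + 2) := by
      refine le_trans (Real.exp_le_exp.mpr ?_) (hexp (b + 2))
      push_cast
      linarith
    have h2 : (T : ℝ) * (K * (((16 * T : ℕ) : ℝ) ^ r + 1) * Real.exp (-(θ : ℝ))) ≤
        (1 / 2 : ℝ) ^ (b + 2) := by
      have h3 : (T : ℝ) * (((16 * T : ℕ) : ℝ) ^ r + 1) ≤ 2 * n := by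
        have h4 : ((T * (16 * T) ^ r : ℕ) : ℝ) ≤ n := by exact_mod_cast hTn
        have h5 : (T : ℝ) ≤ n := by exact_mod_cast hTn'
        push_cast at h4 ⊢
        linarith
      have h4 : (K : ℝ) ≤ n := by exact_mod_cast hKT.trans hTn'
      have h5 : (T : ℝ) * (K * (((16 * T : ℕ) : ℝ) ^ r + 1) * Real.exp (-(θ : ℝ))) ≤
          2 * (n : ℝ) ^ 2 * Real.exp (-(θ : ℝ)) := by
        calc (T : ℝ) * (K * (((16 * T : ℕ) : ℝ) ^ r + 1) * Real.exp (-(θ : ℝ)))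
            = K * ((T : ℝ) * (((16 * T : ℕ) : ℝ) ^ r + 1)) * Real.exp (-(θ : ℝ)) := by ring
          _ ≤ n * (2 * n) * Real.exp (-(θ : ℝ)) := by
              refine mul_le_mul_of_nonneg_right ?_ (Real.exp_pos _).le
              exact mul_le_mul h4 h3 (by positivity) hnpos.le
          _ = 2 * (n : ℝ) ^ 2 * Real.exp (-(θ : ℝ)) := by ring
      have h6 : (n : ℝ) ≤ 2 ^ (l + 1) := by
        have h7 : n < 2 ^ (l + 1) := by rw [hl]; exact Nat.lt_pow_succ_log_self (by norm_num) n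
        exact_mod_cast h7.le
      have h7 : (n : ℝ) ^ 2 ≤ 2 ^ (2 * l + 2) := by
        calc (n : ℝ) ^ 2 ≤ (2 ^ (l + 1)) ^ 2 := pow_le_pow_left₀ hnpos.le h6 2
          _ = 2 ^ (2 * l + 2) := by rw [← pow_mul]; congr 1; ring
      refine h5.trans ?_
      calc 2 * (n : ℝ) ^ 2 * Real.exp (-(θ : ℝ)) ≤ 2 * 2 ^ (2 * l + 2) * (1 / 2 : ℝ) ^ θ :=
            mul_le_mul (by linarith) (hexp θ) (Real.exp_pos _).le (by positivity)
        _ = (1 / 2 : ℝ) ^ (b + 17) := by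
            have h8 : (2 : ℝ) ^ (2 * l + 2) * (1 / 2 : ℝ) ^ (2 * l + 2) = 1 := by
              rw [← mul_pow]; norm_num
            have h9 : (1 / 2 : ℝ) ^ θ = (1 / 2 : ℝ) ^ (2 * l + 2) * ((1 / 2) ^ (b + 17) * (1 / 2)) := by
              rw [← pow_succ, ← pow_add, hθ]
              congr 1
              omega
            rw [h9]
            calc 2 * (2 : ℝ) ^ (2 * l + 2) * ((1 / 2 : ℝ) ^ (2 * l + 2) * ((1 / 2) ^ (b + 17) * (1 / 2)))
                = ((2 : ℝ) ^ (2 * l + 2) * (1 / 2 : ℝ) ^ (2 * l + 2)) * (1 / 2) ^ (b + 17) := by ring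
              _ = (1 / 2 : ℝ) ^ (b + 17) := by rw [h8, one_mul]
        _ ≤ (1 / 2 : ℝ) ^ (b + 2) :=
            pow_le_pow_of_le_one (by norm_num) (by norm_num) (by omega)
    calc _ ≤ (1 / 2 : ℝ) ^ (b + 2) + (1 / 2 : ℝ) ^ (b + 2) := add_le_add h1 h2
      _ = (1 / 2 : ℝ) ^ (b + 1) := by rw [show b + 2 = (b + 1) + 1 by omega, pow_succ]; ring
  · have h1 : K * (72 * θ ^ 2) ≤ T - 1 := by rw [hK]; exact Nat.div_mul_le_self _ _
    have h2 : 72 * K * θ ^ 2 = K * (72 * θ ^ 2) := by ring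
    rw [h2]
    omega
  · have h1 : T - 1 < (K + 1) * (72 * θ ^ 2) := by
      rw [hK]
      have := Nat.lt_mul_div_succ (T - 1) hden
      rw [mul_comm]
      exact this
    have h2 : (T : ℝ) - 1 ≤ (K + 1) * (72 * (θ : ℝ) ^ 2) := by
      have h3 : ((T - 1 : ℕ) : ℝ) ≤ (((K + 1) * (72 * θ ^ 2) : ℕ) : ℝ) := by exact_mod_cast h1.le
      rw [Nat.cast_sub hT1] at h3
      push_cast at h3
      exact h3
    have hb2 : (0 : ℝ) < (b : ℝ) ^ 2 := by positivity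
    have h3 : 216 * x * (2 * (l : ℝ) + 21) ^ 2 ≤ (K + 1) * (72 * ((b : ℝ) ^ 2 * (2 * (l : ℝ) + 21) ^ 2)) := by
      refine hTbig.trans (h2.trans ?_)
      exact mul_le_mul_of_nonneg_left (by linarith) (by positivity)
    have h4 : 3 * x ≤ (K + 1) * (b : ℝ) ^ 2 := by
      have h5 : (3 * x) * (72 * (2 * (l : ℝ) + 21) ^ 2) ≤ ((K + 1) * (b : ℝ) ^ 2) * (72 * (2 * (l : ℝ) + 21) ^ 2) := by
        linarith
      exact le_of_mul_le_mul_right h5 (by positivity)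
    have h5 : 2 * (x / (b : ℝ) ^ 2) = 2 * x / (b : ℝ) ^ 2 := by ring
    rw [h5, div_le_iff₀ hb2]
    linarith

end Pool.Agent.H15.RO
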